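import Pool.Agent.H60.LVP.TR
import Pool.Agent.H26.ES.Targets

/-!
# Board est (MP_e21eee_nt), row TRP: adding one prime to a set of stars
-/

set_option autoImplicit false

open Finset MeasureTheory

namespace Pool.Agent.H43.ES

open Pool.Agent.H24.CL Pool.Agent.H24.LV Pool.Agent.H26.ES Pool.Agent.H60.LVP

open Classical in
/-- the elements of the kernel whose translates are good at a fixed position -/
theorem kr_count1 (hCO : L_CO) {k : ℕ} {q D : ℕ} (hq : 0 < q) (hD : 0 < D) (hco : D.Coprime q)
    {G : ℕ → Set (X k)} (hU : Uni k q G) {x : ℕ} (hx : x < q * D) (a : X k) :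
    (((Kr k q (x % q)).filter fun κ => phi D (x % D) (a + κ) ∈ G (x / D)).card : ℝ) ≤ q ^ k := by
  have hcard : (HF k q 1).card = q ^ k := by
    have := (hTO k q hq).2.2.1 1
    rwa [one_mul] at this
  have hk0 : ∀ κ ∈ Kr k q (x % q), phi q (x % q) κ = 0 := fun κ hκ =>
    ((hCO.2.2.2.1 k q (x % q) hq).2 κ).1 hκ
  have hker : ∀ κ ∈ Kr k q (x % q), κ ∈ H k q k := by
    intro κ hκ
    apply (hKC k q (x % q) hq).2
    rw [AddMonoidHom.mem_ker]
    exact hk0 κ hκ
  have hpos : x / D < q := by
    rw [Nat.div_lt_iff_lt_mul hD]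
    exact hx
  have hcen : ∀ b : X k, phi q (x / D) (phi D (x % D) b) = phi D (x / q) (phi q (x % q) b) := by
    intro b
    rw [hCO.1, hCO.1, Nat.mod_add_div, Nat.mod_add_div, mul_comm]
  have hle : ((Kr k q (x % q)).filter fun κ => phi D (x % D) (a + κ) ∈ G (x / D)).card ≤
      q ^ k := by
    rcases ((Kr k q (x % q)).filter fun κ =>
      phi D (x % D) (a + κ) ∈ G (x / D)).eq_empty_or_nonempty with h | ⟨κ0, h0⟩
    · rw [h, Finset.card_empty]
      exact Nat.zero_le _
    · have hm0 := Finset.mem_filter.1 h0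
      rw [← hcard]
      apply Finset.card_le_card_of_injOn (fun κ' => κ' - κ0)
      · intro κ' hκ'
        have hm := Finset.mem_filter.1 hκ'
        change κ' - κ0 ∈ HF k q 1
        rw [(hTO k q hq).2.1 1 (κ' - κ0), mem_H, pow_one]
        have e2 : phi q (x / D) (phi D (x % D) (a + κ')) =
            phi q (x / D) (phi D (x % D) (a + κ0)) := by
          rw [hcen, hcen, map_add (phi q (x % q)), map_add (phi q (x % q)), hk0 κ' hm.1,
            hk0 κ0 hm0.1]
        have hm2 := hU _ hpos _ hm.2 _ hm0.2 e2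
        have e1 : phi D (x % D) (a + κ') - phi D (x % D) (a + κ0) = phi D (x % D) (κ' - κ0) := by
          rw [← map_sub]
          congr 1
          abel
        rw [e1, mem_H, pow_one, ← map_nsmul] at hm2
        refine hCO.2.2.1 k D (x % D) (q ^ k) (q • (κ' - κ0)) (Nat.Coprime.pow_right k hco) ?_ hm2
        have h3 : κ' - κ0 ∈ H k q k := AddSubgroup.sub_mem _ (hker κ' hm.1) (hker κ0 hm0.1)
        rw [mem_H] at h3
        rw [smul_comm, h3, smul_zero]
      · intro κ' _ κ'' _ he
        exact sub_left_injective he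
  exact_mod_cast hle

open Classical in
theorem pf_TRP (hCO : L_CO) (hAI : L_AI) : T_TRP := by
  intro k S V Ge Gd P m τ Ω q hqS hSD T hT
  have hpr : ∀ p ∈ insert q S, p.Prime := fun p hp => (hSD.pr p hp).1
  have hqi : q ∈ insert q S := Finset.mem_insert_self _ _
  have hq : q.Prime := hpr q hqi
  have hS : ∀ p ∈ S, p.Prime := fun p hp => hpr p (Finset.mem_insert_of_mem hp)
  have hD : 0 < DS S := DS_pos S hS
  have hco := DS_coprime S q hqS hq hS
  have hk := hSD.hk
  have hKk := KN_ge k (by omega)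
  have hq0 : (0 : ℝ) < q := by exact_mod_cast hq.pos
  have hD0 : (0 : ℝ) < DS S := by exact_mod_cast hD
  have key : ∀ x : ℕ, x < q * DS S → volume.real {b : X k | T (phi q (x % q) b) (x / q) ∧
      phi (DS S) (x % DS S) b ∈ Gd q (x / DS S)} ≤
      (q : ℝ) ^ k / (q : ℝ) ^ (KN k) * volume.real {b : X k | T b (x / q)} := by
    intro x hx
    have hphi : ∀ (D y : ℕ), 0 < D → MeasurableSet {b : X k | phi D y b ∈ Gd q (x / DS S)} := by
      intro D y hD
      exact (hMP k D y hD).1.measurable (hSD.mG q hqi _)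
    have hTm : MeasurableSet {b : X k | T (phi q (x % q) b) (x / q)} :=
      (hMP k q (x % q) hq.pos).1.measurable (hT (x / q))
    obtain ⟨A, hAe⟩ : ∃ A : Set (X k), A = {b : X k | T (phi q (x % q) b) (x / q) ∧
      phi (DS S) (x % DS S) b ∈ Gd q (x / DS S)} := ⟨_, rfl⟩
    obtain ⟨B, hBe⟩ : ∃ B : Set (X k), B = {b : X k | T (phi q (x % q) b) (x / q)} := ⟨_, rfl⟩
    have hmA : ∀ b, b ∈ A ↔ T (phi q (x % q) b) (x / q) ∧
        phi (DS S) (x % DS S) b ∈ Gd q (x / DS S) := by
      intro b; rw [hAe]; exact Iff.rfl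
    have hmB : ∀ b, b ∈ B ↔ T (phi q (x % q) b) (x / q) := by
      intro b; rw [hBe]; exact Iff.rfl
    have hAm : MeasurableSet A := by rw [hAe]; exact hTm.inter (hphi _ _ hD)
    have hBm : MeasurableSet B := by rw [hBe]; exact hTm
    have h1 := avg_le hAI (Kr k q (x % q)) (by
      rw [← Finset.card_pos, (hCO.2.2.2.1 k q (x % q) hq.pos).1]
      exact pow_pos hq.pos _) A B hAm hBm ((q : ℝ) ^ k) ?_
    · rw [(hCO.2.2.2.1 k q (x % q) hq.pos).1] at h1
      push_cast at h1
      rw [← hAe]
      refine h1.trans (le_of_eq ?_)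
      congr 1
      rw [hBe]
      have h2 := (hMP k q (x % q) hq.pos).2.2.measureReal_preimage
        (hT (x / q)).nullMeasurableSet
      exact h2
    · intro a
      have hk0 : ∀ κ ∈ Kr k q (x % q), phi q (x % q) (a + κ) = phi q (x % q) a := by
        intro κ hκ
        rw [map_add, ((hCO.2.2.2.1 k q (x % q) hq.pos).2 κ).1 hκ, add_zero]
      by_cases ha : T (phi q (x % q) a) (x / q)
      · rw [if_pos ((hmB a).2 ha)]
        refine le_trans ?_ (kr_count1 hCO hq.pos hD hco (hSD.uni q hqi) hx a)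
        rw [Nat.cast_le]
        apply Finset.card_le_card
        intro κ hκ
        rw [Finset.mem_filter] at hκ ⊢
        exact ⟨hκ.1, ((hmA _).1 hκ.2).2⟩
      · rw [if_neg (fun h => ha ((hmB a).1 h))]
        rw [Finset.filter_false_of_mem]
        · simp
        · intro κ hκ hh
          apply ha
          have := ((hmA _).1 hh).1
          rwa [hk0 κ hκ] at this
  unfold mass
  rw [DS_insert S q hqS]
  have h2 : ∑ x ∈ range (q * DS S), volume.real {b : X k | T (phi q (x % q) b) (x / q) ∧
      phi (DS S) (x % DS S) b ∈ Gd q (x / DS S)} ≤ (q : ℝ) ^ k / (q : ℝ) ^ (KN k) *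
        (q * ∑ x ∈ range (DS S), volume.real {b : X k | T b x}) := by
    refine (Finset.sum_le_sum fun x hx => key x (Finset.mem_range.1 hx)).trans ?_
    rw [← Finset.mul_sum]
    apply mul_le_mul_of_nonneg_left _ (by positivity)
    apply le_of_eq
    have h3 : ∀ (g : ℕ → ℝ) (D : ℕ), ∑ x ∈ range (q * D), g (x / q) = q * ∑ x ∈ range D, g x := by
      intro g D
      induction D with
      | zero => simp
      | succ D ih =>
        rw [Nat.mul_succ, Finset.sum_range_add, ih, Finset.sum_range_succ, mul_add]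
        congr 1
        have : ∀ y ∈ range q, g ((q * D + y) / q) = g D := by
          intro y hy
          rw [Nat.mul_add_div hq.pos, Nat.div_eq_of_lt (Finset.mem_range.1 hy), add_zero]
        rw [Finset.sum_congr rfl this, Finset.sum_const, Finset.card_range, nsmul_eq_mul]
    exact h3 (fun x => volume.real {b : X k | T b x}) (DS S)
  push_cast
  have hpow : (q : ℝ) ^ (KN k) = (q : ℝ) ^ (KN k - k) * (q : ℝ) ^ k := by
    rw [← pow_add]
    congr 1
    omega
  calc ((q : ℝ) * DS S) ^ (KN k - k) * (1 / ((q : ℝ) * DS S) * ∑ x ∈ range (q * DS S),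
        volume.real {b : X k | T (phi q (x % q) b) (x / q) ∧
          phi (DS S) (x % DS S) b ∈ Gd q (x / DS S)})
      ≤ ((q : ℝ) * DS S) ^ (KN k - k) * (1 / ((q : ℝ) * DS S) * ((q : ℝ) ^ k /
        (q : ℝ) ^ (KN k) * (q * ∑ x ∈ range (DS S), volume.real {b : X k | T b x}))) := by
        apply mul_le_mul_of_nonneg_left _ (by positivity)
        apply mul_le_mul_of_nonneg_left h2 (by positivity)
    _ = (DS S : ℝ) ^ (KN k - k) * (1 / (DS S : ℝ) *
        ∑ x ∈ range (DS S), volume.real {b : X k | T b x}) := by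
        rw [hpow, mul_pow]
        field_simp

end Pool.Agent.H43.ES
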