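import Pool.Agent.H60.LVP.LM
import Pool.Agent.H26.ES.Targets

/-!
# Board est (MP_e21eee_nt), row LMP: the mass of the lonely stars
-/

set_option autoImplicit false

open Finset MeasureTheory

namespace Pool.Agent.H43.ES

open Pool.Agent.H24.CL Pool.Agent.H24.LV Pool.Agent.H26.ES Pool.Agent.H60.LVP

theorem meas_acP {k : ℕ} {p q : ℕ} (hp : 1 ≤ p) (hq1 : 1 ≤ q) {V : Set (X k)}
    {G : ℕ → Set (X k)} (hV : MeasurableSet V) (hG : ∀ y, MeasurableSet (G y)) (y : ℕ) :
    Measurable fun b : X k => acP p q V G b y := by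
  classical
  unfold acP
  apply Measurable.div_const
  have h1 : (fun b : X k => (((range q).filter fun z => phi q z (phi p y b) ∈ V ∧
      phi q ((y + p * z) % q) b ∈ G ((y + p * z) / q)).card : ℝ)) = fun b => ∑ z ∈ range q,
      ({b | phi q z (phi p y b) ∈ V ∧ phi q ((y + p * z) % q) b ∈ G ((y + p * z) / q)} :
        Set (X k)).indicator (fun _ => (1 : ℝ)) b := by
    funext b
    rw [Finset.card_filter]
    push_cast
    refine Finset.sum_congr rfl fun z _ => ?_
    by_cases h : phi q z (phi p y b) ∈ V ∧ phi q ((y + p * z) % q) b ∈ G ((y + p * z) / q)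
    · rw [Set.indicator_of_mem (by exact h), if_pos h]
    · rw [Set.indicator_of_notMem (by exact h), if_neg h]
  rw [h1]
  apply Finset.measurable_sum
  intro z _
  apply measurable_const.indicator
  exact (((phiM q z hq1).comp (phiM p y hp)) hV).inter ((phiM q _ hq1) (hG _))

theorem meas_BadP {k : ℕ} {p q : ℕ} (hp : 1 ≤ p) (hq1 : 1 ≤ q) {V : Set (X k)}
    {G : ℕ → Set (X k)} (hV : MeasurableSet V) (hG : ∀ y, MeasurableSet (G y)) (kap : ℝ) (y : ℕ) :
    MeasurableSet {b : X k | BadP p q V G kap b y} := by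
  classical
  unfold BadP
  apply measurableSet_le measurable_const
  unfold difP
  apply Finset.measurable_sum
  intro κ _
  apply Finset.measurable_sum
  intro κ' _
  have h1 : ∀ κ : X k, Measurable fun b : X k => acP p q V G (b + κ) y := fun κ =>
    (meas_acP hp hq1 hV hG y).comp (measurable_id.add_const κ)
  by_cases hc : κ - κ' ∈ H k p 1
  · simp only [hc, if_true]
    exact measurable_const
  · simp only [hc, if_false]
    exact (h1 κ).mul (h1 κ')

theorem meas_StarP {k : ℕ} (S : Finset ℕ) (hS : ∀ p ∈ S, p.Prime) {V : Set (X k)}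
    (hV : MeasurableSet V) {Gd : ℕ → ℕ → Set (X k)} (hG : ∀ p ∈ S, ∀ y, MeasurableSet (Gd p y))
    (x : ℕ) : MeasurableSet {b : X k | StarP S V Gd b x} := by
  unfold StarP
  apply MeasurableSet.inter
  · exact (phiM (DS S) x (DS_pos S hS)) hV
  · have h1 : {b : X k | ∀ p ∈ S, phi (DS S / p) (x % (DS S / p)) b ∈ Gd p (x / (DS S / p))} =
        ⋂ p ∈ S, {b : X k | phi (DS S / p) (x % (DS S / p)) b ∈ Gd p (x / (DS S / p))} := by
      ext b
      simp only [Set.mem_ofPred_eq, Set.mem_iInter]
    change MeasurableSet {b : X k | ∀ p ∈ S,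
      phi (DS S / p) (x % (DS S / p)) b ∈ Gd p (x / (DS S / p))}
    rw [h1]
    apply Finset.measurableSet_biInter
    intro p hp
    have hdvd : p ∣ DS S := Finset.dvd_prod_of_mem _ hp
    have hpos : 1 ≤ DS S / p := Nat.div_pos (Nat.le_of_dvd (DS_pos S hS) hdvd) (hS p hp).pos
    exact (phiM (DS S / p) _ hpos) (hG p hp _)

theorem meas_LonelyP {k : ℕ} (S : Finset ℕ) (q : ℕ) (hS : ∀ p ∈ insert q S, p.Prime)
    {V : Set (X k)} (hV : MeasurableSet V) {Gd : ℕ → ℕ → Set (X k)}
    (hG : ∀ p ∈ insert q S, ∀ y, MeasurableSet (Gd p y)) (kap : ℝ) (x : ℕ) :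
    MeasurableSet {b : X k | LonelyP S q V Gd kap b x} := by
  classical
  have hq1 : 1 ≤ q := (hS q (Finset.mem_insert_self _ _)).pos
  have hD1 : 1 ≤ DS S := DS_pos S fun p hp => hS p (Finset.mem_insert_of_mem hp)
  have h0 : {b : X k | LonelyP S q V Gd kap b x} =
      {b : X k | StarP (insert q S) V Gd b x} ∩
      {b : X k | (((range q).filter fun z => StarP (insert q S) V Gd b
      (x % DS S + DS S * z) ∧ hd (DS S) V (phi q (x % q) b) ≤
        hd (DS S) V (phi q ((x % DS S + DS S * z) % q) b)).card : ℝ) < kap * q} := rfl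
  rw [h0]
  apply MeasurableSet.inter (meas_StarP _ hS hV hG x)
  apply measurableSet_lt _ measurable_const
  have h1 : (fun b : X k => (((range q).filter fun z => StarP (insert q S) V Gd b
      (x % DS S + DS S * z) ∧ hd (DS S) V (phi q (x % q) b) ≤
        hd (DS S) V (phi q ((x % DS S + DS S * z) % q) b)).card : ℝ)) =
      fun b => ∑ z ∈ range q, ({b | StarP (insert q S) V Gd b (x % DS S + DS S * z) ∧
        hd (DS S) V (phi q (x % q) b) ≤
        hd (DS S) V (phi q ((x % DS S + DS S * z) % q) b)} : Set (X k)).indicator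
          (fun _ => (1 : ℝ)) b := by
    funext b
    rw [Finset.card_filter]
    push_cast
    refine Finset.sum_congr rfl fun z _ => ?_
    by_cases h : StarP (insert q S) V Gd b (x % DS S + DS S * z) ∧
        hd (DS S) V (phi q (x % q) b) ≤ hd (DS S) V (phi q ((x % DS S + DS S * z) % q) b)
    · rw [Set.indicator_of_mem (by exact h), if_pos h]
    · rw [Set.indicator_of_notMem (by exact h), if_neg h]
  rw [h1]
  apply Finset.measurable_sum
  intro z _
  apply measurable_const.indicator
  apply MeasurableSet.inter (meas_StarP _ hS hV hG _)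
  exact measurableSet_le ((meas_hd _ hD1 hV).comp (phiM q _ hq1))
    ((meas_hd _ hD1 hV).comp (phiM q _ hq1))

open Classical in
theorem pf_LMP (hPLP : T_PLP) (hLCP : T_LCP) (hCO : L_CO) (hAI : L_AI) : T_LMP := by
  intro k hk
  obtain ⟨C, hC, hPL⟩ := hPLP k hk
  refine ⟨C, hC, ?_⟩
  intro S V Ge Gd P m τ Ω kap kap' q hqS hSD hkap hkap1 hkap'
  have hPLq := hPL (insert q S) V Ge Gd P m τ Ω kap hSD hkap hkap1
  have hpr : ∀ p ∈ insert q S, p.Prime := fun p hp => (hSD.pr p hp).1
  have hqi : q ∈ insert q S := Finset.mem_insert_self _ _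
  have hq : q.Prime := hpr q hqi
  have hS : ∀ p ∈ S, p.Prime := fun p hp => hpr p (Finset.mem_insert_of_mem hp)
  have hD : 0 < DS S := DS_pos S hS
  have hq1 : 1 ≤ q := hq.pos
  have hK := KN_ge k (by omega)
  have hm0 : 0 ≤ m := by have := hSD.hm; linarith
  have hΩ := hSD.hΩ
  have hP1 := hSD.hP
  obtain ⟨D, hDe⟩ : ∃ D, D = DS S := ⟨_, rfl⟩
  have hq0 : (0 : ℝ) < q := by exact_mod_cast hq1
  have hD0 : (0 : ℝ) < D := by rw [hDe]; exact_mod_cast hD
  set E2 : ℝ := kap' + S.card * kap with hE2
  have hE20 : 0 ≤ E2 := by rw [hE2]; positivity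
  obtain ⟨Lo, hLo⟩ : ∃ Lo : ℕ → Set (X k), Lo = fun x => {b : X k | LonelyP S q V Gd kap' b x} :=
    ⟨_, rfl⟩
  have hmLo : ∀ x b, b ∈ Lo x ↔ LonelyP S q V Gd kap' b x := by
    intro x b; rw [hLo]; exact Iff.rfl
  have hLom : ∀ x, MeasurableSet (Lo x) := by
    intro x
    rw [hLo]
    exact meas_LonelyP S q hpr hSD.mV hSD.mG kap' x
  -- the bad sets
  obtain ⟨Ba, hBa⟩ : ∃ Ba : ℕ → ℕ → Set (X k), Ba = fun p y =>
    {b : X k | phi p y b ∈ Ge q ∧ BadP p q V (Gd p) kap b y} := ⟨_, rfl⟩
  have hBam : ∀ p ∈ S, ∀ y, MeasurableSet (Ba p y) := by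
    intro p hp y
    rw [hBa]
    exact ((phiM p y (hS p hp).pos) (hSD.mE q hqi)).inter
      (meas_BadP (hS p hp).pos hq1 hSD.mV (hSD.mG p (Finset.mem_insert_of_mem hp)) kap y)
  -- the facts on the divisors
  have hdv : ∀ p ∈ S, p * (DS S / p) = DS S := fun p hp =>
    Nat.mul_div_cancel' (Finset.dvd_prod_of_mem _ hp)
  have hdp : ∀ p ∈ S, 1 ≤ DS S / p := by
    intro p hp
    exact Nat.div_pos (Nat.le_of_dvd hD (Finset.dvd_prod_of_mem _ hp)) (hS p hp).pos
  have hcomp : ∀ p ∈ S, ∀ y (b : X k), phi (DS S) y b =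
      phi p (y / (DS S / p)) (phi (DS S / p) (y % (DS S / p)) b) := by
    intro p hp y b
    rw [hCO.1 k p (DS S / p), hdv p hp, Nat.mod_add_div]
  -- for fixed y
  have key : ∀ y < DS S, ∑ z ∈ range q, volume.real (Lo (y + DS S * z)) ≤
      (1 / (D : ℝ) ^ (KN k)) * ((D : ℝ) ^ k * q * (
        ∑ p ∈ S, volume.real (Ba p (y / (DS S / p))) + E2 * volume.real (Ge q))) := by
    intro y hy
    have hKr : (Kr k (DS S) y).Nonempty := by
      rw [← Finset.card_pos, (hCO.2.2.2.1 k (DS S) y hD).1]
      exact pow_pos hD _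
    have e1 : ∑ z ∈ range q, volume.real (Lo (y + DS S * z)) =
        (1 / ((Kr k (DS S) y).card : ℝ)) * ∫ a : X k, ∑ z ∈ range q,
          (((Kr k (DS S) y).filter fun κ => a + κ ∈ Lo (y + DS S * z)).card : ℝ) := by
      rw [integral_finsetSum _ (fun z _ => card_int _ _ (hLom _)), Finset.mul_sum]
      exact Finset.sum_congr rfl fun z _ => vol_avg hAI _ hKr _ (hLom _)
    rw [e1, (hCO.2.2.2.1 k (DS S) y hD).1]
    push_cast
    rw [← hDe]
    apply mul_le_mul_of_nonneg_left _ (by positivity)
    rw [hDe]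
    -- the preimages
    have hGp : volume.real {b : X k | phi (DS S) y b ∈ Ge q} = volume.real (Ge q) :=
      vol_phi (DS S) y hD (hSD.mE q hqi)
    have hBp : ∀ p ∈ S, volume.real {b : X k | phi (DS S / p) (y % (DS S / p)) b ∈
        Ba p (y / (DS S / p))} = volume.real (Ba p (y / (DS S / p))) := fun p hp =>
      vol_phi (DS S / p) _ (hdp p hp) (hBam p hp _)
    have hGm : MeasurableSet {b : X k | phi (DS S) y b ∈ Ge q} :=
      (phiM (DS S) y hD) (hSD.mE q hqi)
    have hBpm : ∀ p ∈ S, MeasurableSet {b : X k | phi (DS S / p) (y % (DS S / p)) b ∈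
        Ba p (y / (DS S / p))} := fun p hp =>
      (phiM (DS S / p) _ (hdp p hp)) (hBam p hp _)
    have hpt : ∀ a : X k, ∑ z ∈ range q,
        (((Kr k (DS S) y).filter fun κ => a + κ ∈ Lo (y + DS S * z)).card : ℝ) ≤
        ((DS S : ℕ) : ℝ) ^ k * q * (∑ p ∈ S,
          ({b : X k | phi (DS S / p) (y % (DS S / p)) b ∈ Ba p (y / (DS S / p))} :
            Set (X k)).indicator (fun _ => (1 : ℝ)) a +
          E2 * ({b : X k | phi (DS S) y b ∈ Ge q} : Set (X k)).indicator
            (fun _ => (1 : ℝ)) a) := by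
      intro a
      have hcard : ∀ (T : X k → ℕ → Prop) (x : ℕ),
          (((Kr k (DS S) y).filter fun κ => T (a + κ) x).card : ℝ) =
          ((Nat.card {κ : Kr k (DS S) y // T (a + κ.1) x} : ℕ) : ℝ) := by
        intro T x
        rw [Nat.cast_inj]
        have h1 : Nat.card {κ : Kr k (DS S) y // T (a + κ.1) x} =
            Nat.card {κ : X k // κ ∈ Kr k (DS S) y ∧ T (a + κ) x} :=
          Nat.card_congr (Equiv.subtypeSubtypeEquivSubtypeInter _ (fun κ : X k => T (a + κ) x))
        rw [h1]
        exact (Nat.subtype_card _ (fun κ => Finset.mem_filter)).symm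
      have hind : ∀ p ∈ S, 0 ≤ ({b : X k | phi (DS S / p) (y % (DS S / p)) b ∈
          Ba p (y / (DS S / p))} : Set (X k)).indicator (fun _ => (1 : ℝ)) a := by
        intro p _
        apply Set.indicator_nonneg
        intro _ _
        norm_num
      have hsum0 : 0 ≤ ∑ p ∈ S, ({b : X k | phi (DS S / p) (y % (DS S / p)) b ∈
          Ba p (y / (DS S / p))} : Set (X k)).indicator (fun _ => (1 : ℝ)) a :=
        Finset.sum_nonneg hind
      have hDk : (0 : ℝ) ≤ ((DS S : ℕ) : ℝ) ^ k * q := by positivity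
      by_cases hc : phi (DS S) y a ∈ Ge q
      · rw [Set.indicator_of_mem (show a ∈ {b : X k | phi (DS S) y b ∈ Ge q} from hc), mul_one]
        obtain ⟨hc1, hc2⟩ := hLCP k S V Ge Gd P m τ Ω kap kap' q hqS hSD hkap hkap1 hkap' a y hy
        by_cases hbad : ∀ p ∈ S, ¬ BadP p q V (Gd p) kap (phi (DS S / p) (y % (DS S / p)) a)
            (y / (DS S / p))
        · have h1 := hc2 hbad
          have h2 : ∑ z ∈ range q,
              (((Kr k (DS S) y).filter fun κ => a + κ ∈ Lo (y + DS S * z)).card : ℝ) =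
              ∑ z ∈ range q, ((Nat.card {κ : Kr k (DS S) y // LonelyP S q V Gd kap' (a + κ.1)
                (y + DS S * z)} : ℕ) : ℝ) := by
            refine Finset.sum_congr rfl fun z _ => ?_
            rw [← hcard (fun b x => LonelyP S q V Gd kap' b x)]
            congr 2
            apply Finset.filter_congr
            intro κ _
            exact hmLo _ _
          rw [h2]
          refine h1.trans ?_
          apply mul_le_mul_of_nonneg_left _ hDk
          linarith
        · push Not at hbad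
          obtain ⟨p, hp, hbp⟩ := hbad
          have h2 : ∑ z ∈ range q,
              (((Kr k (DS S) y).filter fun κ => a + κ ∈ Lo (y + DS S * z)).card : ℝ) ≤
              ∑ z ∈ range q, ((Nat.card {κ : Kr k (DS S) y // StarP (insert q S) V Gd (a + κ.1)
                (y + DS S * z)} : ℕ) : ℝ) := by
            refine Finset.sum_le_sum fun z _ => ?_
            rw [← hcard (fun b x => StarP (insert q S) V Gd b x), Nat.cast_le]
            apply Finset.card_le_card
            intro κ hκ
            rw [Finset.mem_filter] at hκ ⊢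
            exact ⟨hκ.1, ((hmLo _ _).1 hκ.2).1⟩
          refine h2.trans (hc1.trans ?_)
          have h3 : (1 : ℝ) ≤ ∑ p ∈ S, ({b : X k | phi (DS S / p) (y % (DS S / p)) b ∈
              Ba p (y / (DS S / p))} : Set (X k)).indicator (fun _ => (1 : ℝ)) a := by
            have h4 := Finset.single_le_sum hind hp
            have h5 : phi (DS S / p) (y % (DS S / p)) a ∈ Ba p (y / (DS S / p)) := by
              rw [hBa]
              refine ⟨?_, hbp⟩
              rw [← hcomp p hp]
              exact hc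
            rw [Set.indicator_of_mem (by exact h5)] at h4
            exact h4
          have h6 : (1 : ℝ) ≤ ∑ p ∈ S, ({b : X k | phi (DS S / p) (y % (DS S / p)) b ∈
              Ba p (y / (DS S / p))} : Set (X k)).indicator (fun _ => (1 : ℝ)) a + E2 := by
            linarith
          calc ((DS S : ℕ) : ℝ) ^ k * q = ((DS S : ℕ) : ℝ) ^ k * q * 1 := by ring
            _ ≤ _ := mul_le_mul_of_nonneg_left h6 hDk
      · -- no star
        have h1 : ∀ z ∈ range q,
            (((Kr k (DS S) y).filter fun κ => a + κ ∈ Lo (y + DS S * z)).card : ℝ) = 0 := by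
          intro z _
          rw [Nat.cast_eq_zero, Finset.card_eq_zero, Finset.filter_eq_empty_iff]
          intro κ hκ hh
          apply hc
          have h2 := hSD.sub q hqi _ (((hmLo _ _).1 hh).1.2 q hqi)
          rw [DS_insert S q hqS, Nat.mul_div_cancel_left _ hq.pos, Nat.add_mul_mod_self_left,
            Nat.mod_eq_of_lt hy, map_add, ((hCO.2.2.2.1 k (DS S) y hD).2 κ).1 hκ, add_zero] at h2
          exact h2
        rw [Finset.sum_eq_zero h1]
        apply mul_nonneg hDk
        apply add_nonneg hsum0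
        apply mul_nonneg hE20
        apply Set.indicator_nonneg
        intro _ _
        norm_num
    refine (integral_mono (integrable_finsetSum _ fun z _ => card_int _ _ (hLom _)) ?_ hpt).trans
      (le_of_eq ?_)
    · apply Integrable.const_mul
      apply Integrable.add
      · apply integrable_finsetSum
        intro p hp
        exact (integrable_const _).indicator (hBpm p hp)
      · exact ((integrable_const _).indicator hGm).const_mul _
    · rw [integral_const_mul, integral_add, integral_const_mul,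
        integral_finsetSum _ (fun p hp => (integrable_const _).indicator (hBpm p hp)),
        integral_indicator_const _ hGm, hGp]
      · simp only [smul_eq_mul, mul_one]
        have h7 : ∑ p ∈ S, ∫ a : X k, ({b : X k | phi (DS S / p) (y % (DS S / p)) b ∈
            Ba p (y / (DS S / p))} : Set (X k)).indicator (fun _ => (1 : ℝ)) a =
            ∑ p ∈ S, volume.real (Ba p (y / (DS S / p))) := by
          refine Finset.sum_congr rfl fun p hp => ?_
          rw [integral_indicator_const _ (hBpm p hp), hBp p hp]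
          simp
        rw [h7]
      · apply integrable_finsetSum
        intro p hp
        exact (integrable_const _).indicator (hBpm p hp)
      · exact ((integrable_const _).indicator hGm).const_mul _
  -- sum over y
  have hsum : ∑ x ∈ range (q * DS S), volume.real (Lo x) ≤
      (1 / (D : ℝ) ^ (KN k)) * ((D : ℝ) ^ k * q * (
        ∑ p ∈ S, ((DS S / p : ℕ) : ℝ) * ∑ y ∈ range p, volume.real (Ba p y) +
          E2 * (D * volume.real (Ge q)))) := by
    rw [sum_mod _ q (DS S) hD]
    refine (Finset.sum_le_sum fun y hy => key y (Finset.mem_range.1 hy)).trans (le_of_eq ?_)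
    rw [← Finset.mul_sum, ← Finset.mul_sum, Finset.sum_add_distrib,
      Finset.sum_comm, Finset.sum_const, Finset.card_range, nsmul_eq_mul]
    congr 3
    · refine Finset.sum_congr rfl fun p hp => ?_
      have h1 := sum_div (fun y => volume.real (Ba p y)) (DS S / p) (hdp p hp) p
      rw [mul_comm (DS S / p) p, hdv p hp] at h1
      rw [← h1]
    · rw [hDe]
      ring
  have hPLp : ∀ p ∈ S, ((DS S / p : ℕ) : ℝ) * ∑ y ∈ range p, volume.real (Ba p y) ≤
      D / (q : ℝ) ^ (KN k - k) * (C * m ^ 3 / (kap ^ 3 * P) * Ω) := by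
    intro p hp
    have hpi : p ∈ insert q S := Finset.mem_insert_of_mem hp
    have hpq : p ≠ q := by rintro rfl; exact hqS hp
    have h1 := hPLq p hpi q hqi hpq
    have hp0 : (0 : ℝ) < p := by exact_mod_cast (hS p hp).pos
    have h2 : ∑ y ∈ range p, volume.real {b : X k | phi p y b ∈ Ge q ∧
        BadP p q V (Gd p) kap b y} = ∑ y ∈ range p, volume.real (Ba p y) := by
      rw [hBa]
    rw [h2] at h1
    have h3 : ((DS S / p : ℕ) : ℝ) = D / p := by
      rw [eq_div_iff hp0.ne', hDe, mul_comm]
      exact_mod_cast hdv p hp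
    rw [h3]
    calc (D : ℝ) / p * ∑ y ∈ range p, volume.real (Ba p y)
        = D / (q : ℝ) ^ (KN k - k) * ((q : ℝ) ^ (KN k - k) *
          (1 / (p : ℝ) * ∑ y ∈ range p, volume.real (Ba p y))) := by field_simp
      _ ≤ _ := mul_le_mul_of_nonneg_left h1 (by positivity)
  have hms := hSD.ms q hqi
  unfold mass
  rw [DS_insert S q hqS]
  have hLs : ∑ x ∈ range (q * DS S), volume.real {b : X k | LonelyP S q V Gd kap' b x} =
      ∑ x ∈ range (q * DS S), volume.real (Lo x) := by rw [hLo]
  rw [hLs]
  push_cast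
  rw [← hDe]
  set T1 : ℝ := C * m ^ 3 / (kap ^ 3 * P) with hT1
  have hT10 : 0 ≤ T1 := by rw [hT1]; positivity
  have hs1 : ∑ p ∈ S, ((DS S / p : ℕ) : ℝ) * ∑ y ∈ range p, volume.real (Ba p y) ≤
      S.card * (D / (q : ℝ) ^ (KN k - k) * (T1 * Ω)) := by
    rw [← nsmul_eq_mul]
    exact Finset.sum_le_card_nsmul _ _ _ hPLp
  have hGq : volume.real (Ge q) ≤ Ω / (q : ℝ) ^ (KN k - k) := by
    rw [le_div_iff₀ (by positivity), mul_comm]
    exact hms
  have hpow1 : (D : ℝ) ^ (KN k) = (D : ℝ) ^ (KN k - k) * (D : ℝ) ^ k := by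
    rw [← pow_add]; congr 1; omega
  have hfin : ∑ x ∈ range (q * DS S), volume.real (Lo x) ≤
      (1 / (D : ℝ) ^ (KN k)) * ((D : ℝ) ^ k * q * (
        (S.card * (D / (q : ℝ) ^ (KN k - k) * (T1 * Ω))) +
          E2 * (D * (Ω / (q : ℝ) ^ (KN k - k))))) := by
    refine hsum.trans ?_
    apply mul_le_mul_of_nonneg_left _ (by positivity)
    apply mul_le_mul_of_nonneg_left _ (by positivity)
    apply add_le_add
    · exact hs1
    · apply mul_le_mul_of_nonneg_left _ hE20
      exact mul_le_mul_of_nonneg_left hGq hD0.le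
  rw [← hDe] at hfin
  calc ((q : ℝ) * D) ^ (KN k - k) * (1 / ((q : ℝ) * D) *
        ∑ x ∈ range (q * D), volume.real (Lo x))
      ≤ ((q : ℝ) * D) ^ (KN k - k) * (1 / ((q : ℝ) * D) *
        ((1 / (D : ℝ) ^ (KN k)) * ((D : ℝ) ^ k * q * (
        (S.card * (D / (q : ℝ) ^ (KN k - k) * (T1 * Ω))) +
          E2 * (D * (Ω / (q : ℝ) ^ (KN k - k))))))) := by
        apply mul_le_mul_of_nonneg_left _ (by positivity)
        exact mul_le_mul_of_nonneg_left hfin (by positivity)
    _ = (S.card * T1 + E2) * Ω := by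
        rw [hpow1, mul_pow]
        field_simp
    _ = _ := by
        rw [hE2]
        ring

end Pool.Agent.H43.ES
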